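import Pool.Agent.H.MP_6f21ce_an.D

namespace Pool.Agent.Results.MP_6f21ce_an.Counter

open Set Filter

/-- `B δ = {z ∈ ℂ : dist(z, [0,1]) < δ}`. -/
def B (δ : ℝ) : Set ℂ := {z | Metric.infDist z (Complex.ofReal '' Icc (0:ℝ) 1) < δ}

/-- Analytic IFS for the fixed `ε`: each `f i` is the restriction of a function `F` complex
analytic on `B (2ε)`, with the mapping and derivative conditions of the problem. -/
def IsAnalyticIFS (ε : ℝ) (N : ℕ) (f : Fin N → ℝ → ℝ) : Prop :=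
  2 ≤ N ∧ ∀ i, ∃ F : ℂ → ℂ, AnalyticOnNhd ℂ F (B (2 * ε)) ∧
    (∀ x : ℝ, (x:ℂ) ∈ B (2 * ε) → F x = f i x) ∧
    MapsTo (f i) (Icc (0:ℝ) 1) (Icc (0:ℝ) 1) ∧
    MapsTo F (closure (B ε)) (B ε) ∧
    ∀ z ∈ closure (B ε), 0 < ‖deriv F z‖ ∧ ‖deriv F z‖ < 1

/-- `f_{i₁} ∘ ⋯ ∘ f_{iₙ}` for the word `[i₁, …, iₙ]` (identity for the empty word). -/
def wordMap {N : ℕ} (f : Fin N → ℝ → ℝ) (w : List (Fin N)) : ℝ → ℝ :=
  w.foldr (fun i g => f i ∘ g) id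

/-- Two distinct words whose maps agree on `[0,1]`. -/
def HasExactOverlap {N : ℕ} (f : Fin N → ℝ → ℝ) : Prop :=
  ∃ u v : List (Fin N), u ≠ v ∧ ∀ x ∈ Icc (0:ℝ) 1, wordMap f u x = wordMap f v x

/-- Exponential separation condition. -/
def ESC {N : ℕ} (f : Fin N → ℝ → ℝ) : Prop :=
  ∃ c : ℝ, 0 < c ∧ ∃ᶠ n in atTop, ∀ u v : List (Fin N), u.length = n → v.length = n → u ≠ v →
    c ^ n ≤ ⨆ x : Icc (0:ℝ) 1, |wordMap f u x - wordMap f v x|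

/-- Sub-conjugated to a self-similar IFS. -/
def SubConjugated {N : ℕ} (f : Fin N → ℝ → ℝ) : Prop :=
  ∃ u v : List (Fin N), u ≠ v ∧ u.length = v.length ∧
    ∃ g : ℝ → ℝ, AnalyticOnNhd ℝ g (Icc (0:ℝ) 1) ∧ InjOn g (Icc (0:ℝ) 1) ∧
      ∃ l₁ l₂ t₁ t₂ : ℝ, l₁ ∈ Ioo (-1:ℝ) 1 ∧ l₁ ≠ 0 ∧ l₂ ∈ Ioo (-1:ℝ) 1 ∧ l₂ ≠ 0 ∧
        ∀ x ∈ Icc (0:ℝ) 1, g (wordMap f u x) = l₁ * g x + t₁ ∧ g (wordMap f v x) = l₂ * g x + t₂

open Pool.Agent.H.MP_6f21ce_an in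
theorem result (ε : ℝ) (hε : 0 < ε) :
    ∃ (N : ℕ) (f : Fin N → ℝ → ℝ), IsAnalyticIFS ε N f ∧ ¬ ESC f ∧ ¬ HasExactOverlap f ∧
      ¬ SubConjugated f ∧ ¬ ∃ p ∈ Icc (0:ℝ) 1, ∀ i, f i p = p := by
  obtain ⟨η, hη⟩ : ∃ η : ℝ, η = 1 / (12 * (1 + 2 * ε)) := ⟨_, rfl⟩
  have h0' : 0 < η := by rw [hη]; positivity
  have h2 : η * (1 + 2 * ε) = 1 / 12 := by rw [hη]; field_simp
  have h1 : η ≤ 1 / 12 := by nlinarith
  obtain ⟨s, hs, hy⟩ := exists_sigma (del η) kk (fun s hs => par h0'.le h1 hs) (h0 h0')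
  have hs' := Ioc_subset_Icc_self hs
  have hp := par h0'.le h1 hs'
  refine ⟨5, gen (del η) (fun i => kk i * s), ⟨by norm_num, fun i => ?_⟩, ?_, ?_, ?_, ?_⟩
  · have d1 : del η i * (1 + 2 * ε) ≤ 1 / 4 := by
      have := (del_bd h0'.le i).2
      nlinarith
    obtain ⟨c1, c2, c3⟩ := cplx hε (hp.d0 i) d1 (hp.b0 i) (hp.b1 i)
    refine ⟨_, c1, fun x _ => ?_, fun x hx => hp.gen_mem i hx, c2, c3⟩
    simp only [gen]
    push_cast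
    rfl
  · rintro ⟨c, hc, hf⟩
    obtain ⟨K, hK⟩ := exists_pow_lt_of_lt_one hc (show (1 / 2 : ℝ) < 1 by norm_num)
    obtain ⟨n, hn, hn2⟩ := (hf.and_eventually (eventually_gt_atTop K.factorial)).exists
    obtain ⟨u, v, hu, hv, hne, r, r0, r1, hr⟩ := close h0' h1 hs' K n hn2
    have a1 := hn u v hu hv hne
    have a2 : (⨆ x : Icc (0:ℝ) 1, |wordMap (gen (del η) (fun i => kk i * s)) u x
        - wordMap (gen (del η) (fun i => kk i * s)) v x|) ≤ r :=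
      Real.iSup_le (fun x => hr x x.2) r0
    have a3 : (1:ℝ) / 2 ^ (K * n) ≤ c ^ n := by
      rw [← one_div_pow, pow_mul]
      exact pow_le_pow_left₀ (by positivity) hK.le n
    linarith
  · rintro ⟨u, v, hne, e⟩
    exact hne (no_overlap hp hy e)
  · rintro ⟨u, v, hne, hl, g, hg, hi, l₁, l₂, t₁, t₂, -, -, -, -, e⟩
    exact hne (no_sub hp hy hl hg hi (fun x hx => (e x hx).1) (fun x hx => (e x hx).2))
  · rintro ⟨p, -, e⟩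
    have e0 := e 0
    have e4 := e 4
    simp [gen, del, dA, dB, dC, kk] at e0
    have p0 : p = 0 := by linarith
    subst p0
    simp [gen, kk] at e4
    exact hs.1.ne' e4

end Pool.Agent.Results.MP_6f21ce_an.Counter
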